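import Mathlib
import Pool.Agent.H44.SJ2

open Finset

namespace Pool.Agent.Results.MP_885abb_co.Q1False

open Pool.Agent.H44.SJ

theorem result :
    (∀ (V : Type) [Fintype V] (G : SimpleGraph V), BddAbove (feas G)) ∧
    ∀ r : ℕ, 2 ≤ r → ¬ ∃ C : ℝ, ∀ (V : Fin r → Type) [∀ i, Fintype (V i)]
      (G : ∀ i, SimpleGraph (V i)), (∀ i, 2 ≤ theta' (G i)) →
        theta' (piProd G) ≤ ∏ i, theta' (G i) ^ C := by
  refine ⟨fun V _ G => feas_bdd G, fun r hr => ?_⟩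
  rintro ⟨C, hC⟩
  obtain ⟨n, hn, s, hs, h⟩ := main (2 * ⌈C⌉₊ * r)
  have h2 := two_le_cube (n := n) (by omega)
  have h3 := cube_le (n := n) (by omega)
  have h4 := hC (fun _ => Fin n → Bool) (fun _ => cube n) (fun _ => h2)
  let i0 : Fin r := ⟨0, by omega⟩
  let i1 : Fin r := ⟨1, by omega⟩
  have hne : i1 ≠ i0 := by simp [i0, i1]
  let φ : (Fin n → Bool) × (Fin n → Bool) → (∀ _ : Fin r, Fin n → Bool) := fun P i =>
    if i = i0 then P.1 else if i = i1 then P.2 else fun _ => true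
  have e0 : ∀ P, φ P i0 = P.1 := fun P => by simp [φ]
  have e1 : ∀ P, φ P i1 = P.2 := fun P => by simp [φ, hne]
  have hφ : Function.Injective φ := fun P Q hPQ =>
    Prod.ext (by rw [← e0, ← e0, hPQ]) (by rw [← e1, ← e1, hPQ])
  have h5 : s ≤ theta' (piProd (V := fun _ : Fin r => Fin n → Bool) fun _ => cube n) := by
    refine le_theta (feas_sub (G := sprod (cube n) (cube n))
      (H := piProd (V := fun _ : Fin r => Fin n → Bool) fun _ => cube n) φ hφ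
      (fun P Q hPQ => ⟨fun e => hPQ.1 (by rw [e]), ?_, ?_⟩) hs)
    · simpa only [e0] using hPQ.2 i0
    · simpa only [e1] using hPQ.2 i1
  have hn' : (2 : ℝ) ≤ n := by exact_mod_cast hn
  have h6 : theta' (cube n) ^ C ≤ (n : ℝ) ^ (2 * ⌈C⌉₊) := by
    calc theta' (cube n) ^ C ≤ theta' (cube n) ^ (⌈C⌉₊ : ℝ) :=
          Real.rpow_le_rpow_of_exponent_le (by linarith) (Nat.le_ceil C)
      _ = theta' (cube n) ^ ⌈C⌉₊ := Real.rpow_natCast _ _
      _ ≤ ((n : ℝ) ^ 2) ^ ⌈C⌉₊ := pow_le_pow_left₀ (by linarith) (by nlinarith) _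
      _ = _ := (pow_mul _ _ _).symm
  rw [prod_const, card_univ, Fintype.card_fin] at h4
  have h7 : (theta' (cube n) ^ C) ^ r ≤ ((n : ℝ) ^ (2 * ⌈C⌉₊)) ^ r :=
    pow_le_pow_left₀ (Real.rpow_nonneg (by linarith) _) h6 r
  rw [← pow_mul] at h7
  linarith

end Pool.Agent.Results.MP_885abb_co.Q1False
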